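import Mathlib
import Pool.Agent.K4W.StmtsM

set_option autoImplicit false

/-! Squad K4W (MP_3b0be2_nt), row MCT: the number of the functions without simple values. -/

namespace Pool.Agent.K4W.H44

open Pool.Agent.K4W

theorem card_image_le {n : ℕ} (p : Fin n → ℕ) (h : ∀ i, ∃ k, k ≠ i ∧ p k = p i) :
    2 * (Finset.univ.image p).card ≤ n := by
  have h1 := Finset.card_eq_sum_card_image p Finset.univ
  rw [Finset.card_univ, Fintype.card_fin] at h1
  refine le_trans ?_ (le_of_eq h1.symm)
  rw [mul_comm, ← smul_eq_mul, ← Finset.sum_const]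
  apply Finset.sum_le_sum
  intro b hb
  rw [Finset.mem_image] at hb
  obtain ⟨i, _, rfl⟩ := hb
  obtain ⟨k, hk, hpk⟩ := h i
  apply Finset.one_lt_card.2
  exact ⟨k, Finset.mem_filter.2 ⟨Finset.mem_univ _, hpk⟩, i,
    Finset.mem_filter.2 ⟨Finset.mem_univ _, rfl⟩, hk⟩

theorem mct : MctStmt := by
  classical
  intro l S x y hx hy
  set g : Finset ℕ → ℝ := fun V => x ^ V.card * y ^ (l - V.card) with hg
  have hg0 : ∀ V, 0 ≤ g V := fun V => mul_nonneg (pow_nonneg hx _) (pow_nonneg hy _)
  set T : Finset (Finset ℕ) := S.powerset.filter (fun V => V.card ≤ l) with hT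
  set P : Finset (Fin (2 * l) → ℕ) := Fintype.piFinset (fun _ : Fin (2 * l) => S) with hP
  have step1 : ∀ p ∈ P, (if ∀ i, ∃ k, k ≠ i ∧ p k = p i then
      x ^ (Finset.univ.image p).card * y ^ (l - (Finset.univ.image p).card) else 0) ≤
      ∑ V ∈ T, if p ∈ Fintype.piFinset (fun _ : Fin (2 * l) => V) then g V else 0 := by
    intro p hp
    have hnn : ∀ V ∈ T, 0 ≤ (if p ∈ Fintype.piFinset (fun _ : Fin (2 * l) => V) then g V
        else 0) := by
      intro V _
      split_ifs
      · exact hg0 V
      · exact le_rfl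
    by_cases hc : ∀ i, ∃ k, k ≠ i ∧ p k = p i
    · rw [if_pos hc]
      have hV : Finset.univ.image p ∈ T := by
        rw [hT, Finset.mem_filter, Finset.mem_powerset]
        refine ⟨?_, ?_⟩
        · intro b hb
          rw [Finset.mem_image] at hb
          obtain ⟨i, _, rfl⟩ := hb
          exact Fintype.mem_piFinset.1 hp i
        · have := card_image_le p hc
          omega
      refine le_trans (le_of_eq ?_) (Finset.single_le_sum hnn hV)
      rw [if_pos (Fintype.mem_piFinset.2 fun i => Finset.mem_image_of_mem p (Finset.mem_univ i))]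
    · rw [if_neg hc]
      exact Finset.sum_nonneg hnn
  have step2 : ∀ V ∈ T, ∑ p ∈ P, (if p ∈ Fintype.piFinset (fun _ : Fin (2 * l) => V) then g V
      else 0) ≤ ((2 * l : ℕ) : ℝ) ^ (2 * l) * g V := by
    intro V hV
    rw [hT, Finset.mem_filter] at hV
    rw [← Finset.sum_filter, Finset.sum_const, nsmul_eq_mul]
    apply mul_le_mul_of_nonneg_right _ (hg0 V)
    have h1 : (P.filter (fun p => p ∈ Fintype.piFinset (fun _ : Fin (2 * l) => V))).card ≤
        (2 * l) ^ (2 * l) := by
      refine (Finset.card_le_card (t := Fintype.piFinset (fun _ : Fin (2 * l) => V)) ?_).trans ?_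
      · intro p hp
        exact (Finset.mem_filter.1 hp).2
      · rw [Fintype.card_piFinset_const]
        exact Nat.pow_le_pow_left (by omega) _
    exact_mod_cast h1
  have step3 : ∑ V ∈ T, g V ≤ ((S.card : ℝ) * x + y) ^ l := by
    have hmaps : ∀ V ∈ T, V.card ∈ Finset.range (l + 1) := by
      intro V hV
      rw [hT, Finset.mem_filter] at hV
      rw [Finset.mem_range]
      omega
    rw [← Finset.sum_fiberwise_of_maps_to hmaps, add_pow]
    apply Finset.sum_le_sum
    intro B hB
    rw [Finset.mem_range] at hB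
    have h1 : ∑ V ∈ T with V.card = B, g V = ((T.filter (fun V => V.card = B)).card : ℝ) *
        (x ^ B * y ^ (l - B)) := by
      rw [← nsmul_eq_mul, ← Finset.sum_const]
      apply Finset.sum_congr rfl
      intro V hV
      rw [Finset.mem_filter] at hV
      rw [hg]
      show x ^ V.card * y ^ (l - V.card) = _
      rw [hV.2]
    rw [h1]
    have h2 : (T.filter (fun V => V.card = B)).card ≤ S.card ^ B * l.choose B := by
      have h3 : (T.filter (fun V => V.card = B)).card ≤ S.card.choose B := by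
        rw [← Finset.card_powersetCard]
        apply Finset.card_le_card
        intro V hV
        rw [Finset.mem_filter, hT, Finset.mem_filter, Finset.mem_powerset] at hV
        rw [Finset.mem_powersetCard]
        exact ⟨hV.1.1, hV.2⟩
      have h4 : 0 < l.choose B := Nat.choose_pos (by omega)
      calc (T.filter (fun V => V.card = B)).card ≤ S.card.choose B := h3
        _ ≤ S.card ^ B := Nat.choose_le_pow _ _
        _ ≤ S.card ^ B * l.choose B := Nat.le_mul_of_pos_right _ h4
    have h5 : ((T.filter (fun V => V.card = B)).card : ℝ) ≤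
        (S.card : ℝ) ^ B * (l.choose B : ℝ) := by exact_mod_cast h2
    calc ((T.filter (fun V => V.card = B)).card : ℝ) * (x ^ B * y ^ (l - B)) ≤
        ((S.card : ℝ) ^ B * (l.choose B : ℝ)) * (x ^ B * y ^ (l - B)) :=
          mul_le_mul_of_nonneg_right h5 (mul_nonneg (pow_nonneg hx _) (pow_nonneg hy _))
      _ = ((S.card : ℝ) * x) ^ B * y ^ (l - B) * (l.choose B : ℝ) := by
          rw [mul_pow]
          ring
  calc ∑ p ∈ P, (if ∀ i, ∃ k, k ≠ i ∧ p k = p i then
      x ^ (Finset.univ.image p).card * y ^ (l - (Finset.univ.image p).card) else 0) ≤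
      ∑ p ∈ P, ∑ V ∈ T, (if p ∈ Fintype.piFinset (fun _ : Fin (2 * l) => V) then g V
        else 0) := Finset.sum_le_sum step1
    _ = ∑ V ∈ T, ∑ p ∈ P, (if p ∈ Fintype.piFinset (fun _ : Fin (2 * l) => V) then g V
        else 0) := Finset.sum_comm
    _ ≤ ∑ V ∈ T, ((2 * l : ℕ) : ℝ) ^ (2 * l) * g V := Finset.sum_le_sum step2
    _ = ((2 * l : ℕ) : ℝ) ^ (2 * l) * ∑ V ∈ T, g V := by rw [Finset.mul_sum]
    _ ≤ ((2 * l : ℕ) : ℝ) ^ (2 * l) * ((S.card : ℝ) * x + y) ^ l :=
        mul_le_mul_of_nonneg_left step3 (by positivity)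

end Pool.Agent.K4W.H44
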