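import Mathlib
import Pool.Agent.K4W.StmtsP

set_option autoImplicit false

/-! Squad K4W (MP_3b0be2_nt), row PMN: the main formula with all error terms. -/

namespace Pool.Agent.K4W.H44

open Complex
open Pool.Agent.Helper69_Weyl (ee W)
open Pool.Agent.K4W

theorem rest_bound {c : ℤ → ℂ} (hc : Summable fun m => ‖c m‖) (F0 : Finset ℤ) (B : ℝ)
    (h : ∀ F : Finset ℤ, Disjoint F F0 → ∑ m ∈ F, ‖c m‖ ≤ B) :
    ‖∑' m, c m - ∑ m ∈ F0, c m‖ ≤ B := by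
  have hc' : Summable c := hc.of_norm
  have h1 := hc'.sum_add_tsum_compl (s := F0)
  have h2 : ∑' m, c m - ∑ m ∈ F0, c m = ∑' x : ↑((F0 : Set ℤ)ᶜ), c x := by
    rw [← h1]
    ring
  rw [h2]
  have hs : Summable fun x : ↑((F0 : Set ℤ)ᶜ) => ‖c x‖ := hc.subtype _
  refine (norm_tsum_le_tsum_norm hs).trans (hs.tsum_le_of_sum_le ?_)
  intro s
  have h3 := h (s.map (Function.Embedding.subtype _)) (by
    rw [Finset.disjoint_left]
    intro a ha ha'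
    rw [Finset.mem_map] at ha
    obtain ⟨x, _, rfl⟩ := ha
    exact x.2 ha')
  rw [Finset.sum_map] at h3
  exact h3

theorem pmn (hTRM : TrmStmt) (hFAC : FacStmt) (hGUN : GunStmt) (hSZS : SzsStmt) : PmnStmt := by
  intro N r M S ψ v β b u hN hr hS hψ hb hu hv
  have hr0 : 0 < r := hr.pos
  set g : ℂ := (((r : ℝ) ^ (-(1 / 2) : ℝ) : ℝ) : ℂ) * GS r b 0 with hg
  have hg1 : ‖g‖ = 1 := (hGUN r 1 b hr isCoprime_one_left hb).1
  -- one prime which does not divide `r`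
  have key : ∀ μ ∈ S, ¬ μ ∣ r → ∃ t : ℂ, ‖t‖ ≤
      Real.sqrt ((N : ℝ) / (2 * RR N r ((μ : ℝ) * β))) *
        ((1 + RR N r ((μ : ℝ) * β) / (μ : ℝ)) +
          Real.exp (-(Real.pi * (M : ℝ) ^ 2 / (2 * (RR N r ((μ : ℝ) * β)) ^ 2))) *
            (1 + 2 * RR N r ((μ : ℝ) * β))) ∧
      ‖GS r (μ : ℤ) 0 / GS r 1 0‖ = 1 ∧
      th N ((μ : ℝ) * ((b : ℝ) / (r : ℝ) + β)) = g * (GS r (μ : ℤ) 0 / GS r 1 0) *
        (∑ m ∈ (Finset.Icc (-(M : ℤ)) (M : ℤ)).filter (fun m => ¬ (μ : ℤ) ∣ m),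
          cf N r ((μ : ℝ) * β) m * ee (((-(u * v μ * m ^ 2) : ℤ) : ℝ) / (r : ℝ)) + t) := by
    intro μ hμ hμr
    have hcop : IsCoprime (μ : ℤ) (r : ℤ) := by
      rw [Nat.isCoprime_iff_coprime]
      exact (hS μ hμ).coprime_iff_not_dvd.2 hμr
    obtain ⟨_, hG1, hG2⟩ := hGUN r (μ : ℤ) b hr hcop hb
    have hdvd : (r : ℤ) ∣ 4 * ((μ : ℤ) * b) * (u * v μ) - 1 := by
      have e : 4 * ((μ : ℤ) * b) * (u * v μ) - 1 =
          (4 * b * u - 1) * ((μ : ℤ) * v μ) + ((μ : ℤ) * v μ - 1) := by ring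
      rw [e]
      exact dvd_add (Dvd.dvd.mul_right hu _) (hv μ hμ hμr)
    have h1 := hFAC N r ((μ : ℤ) * b) (u * v μ) ((μ : ℝ) * β) hN hr0 hdvd
    obtain ⟨s1, _, _, s4, s5⟩ := hSZS N r ((μ : ℝ) * β) hN hr0
    set c : ℤ → ℂ := fun m => cf N r ((μ : ℝ) * β) m *
      ee (((-(u * v μ * m ^ 2) : ℤ) : ℝ) / (r : ℝ)) with hc
    have hcn : ∀ m, ‖c m‖ = ‖cf N r ((μ : ℝ) * β) m‖ := by
      intro m
      rw [hc]
      show ‖cf N r ((μ : ℝ) * β) m * ee (((-(u * v μ * m ^ 2) : ℤ) : ℝ) / (r : ℝ))‖ = _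
      rw [norm_mul, Pool.Agent.Helper69_Weyl.norm_ee, mul_one]
    refine ⟨∑' m, c m - ∑ m ∈ (Finset.Icc (-(M : ℤ)) (M : ℤ)).filter
      (fun m => ¬ (μ : ℤ) ∣ m), c m, ?_, hG1, ?_⟩
    · apply rest_bound
      · simp only [hcn]
        exact s1
      · intro F hF
        simp only [hcn]
        rw [← Finset.sum_filter_add_sum_filter_not F (fun m => (μ : ℤ) ∣ m), mul_add]
        apply add_le_add
        · apply s4 μ (hS μ hμ).pos
          intro m hm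
          exact (Finset.mem_filter.1 hm).2
        · rw [← mul_assoc]
          apply s5 M
          intro m hm
          rw [Finset.mem_filter] at hm
          by_contra hle
          rw [not_lt] at hle
          apply (Finset.disjoint_left.1 hF) hm.1
          rw [Finset.mem_filter, Finset.mem_Icc]
          exact ⟨abs_le.1 hle, hm.2⟩
    · have e1 : (μ : ℝ) * ((b : ℝ) / (r : ℝ) + β) =
          (((μ : ℤ) * b : ℤ) : ℝ) / (r : ℝ) + (μ : ℝ) * β := by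
        push_cast
        ring
      rw [e1, h1, hG2, add_sub_cancel, hg]
      ring
  choose! t ht1 ht2 ht3 using key
  rw [← Finset.sum_filter_add_sum_filter_not S (fun μ => μ ∣ r)]
  have hsum : ∑ μ ∈ S.filter (fun μ => ¬ μ ∣ r),
      ψ μ * th N ((μ : ℝ) * ((b : ℝ) / (r : ℝ) + β)) =
      g * PS N r M S ψ v β u + ∑ μ ∈ S.filter (fun μ => ¬ μ ∣ r),
        ψ μ * (g * (GS r (μ : ℤ) 0 / GS r 1 0) * t μ) := by
    unfold PS
    rw [Finset.mul_sum, ← Finset.sum_add_distrib]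
    apply Finset.sum_congr rfl
    intro μ hμ
    rw [Finset.mem_filter] at hμ
    rw [ht3 μ hμ.1 hμ.2]
    ring
  rw [hsum]
  have n1 : ‖∑ μ ∈ S.filter (fun μ => μ ∣ r), ψ μ * th N ((μ : ℝ) * ((b : ℝ) / (r : ℝ) + β))‖ ≤
      ∑ μ ∈ S.filter (fun μ => μ ∣ r),
        Real.sqrt ((N : ℝ) * (μ : ℝ) / (2 * RR N r ((μ : ℝ) * β))) *
          (1 + RR N r ((μ : ℝ) * β) / (μ : ℝ)) := by
    refine (norm_sum_le _ _).trans (Finset.sum_le_sum ?_)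
    intro μ hμ
    rw [Finset.mem_filter] at hμ
    rw [norm_mul]
    have h1 := hTRM N r μ b β hN hr hb (hS μ hμ.1).pos hμ.2
    calc ‖ψ μ‖ * ‖th N ((μ : ℝ) * ((b : ℝ) / (r : ℝ) + β))‖ ≤
          1 * ‖th N ((μ : ℝ) * ((b : ℝ) / (r : ℝ) + β))‖ :=
          mul_le_mul_of_nonneg_right (hψ μ hμ.1) (norm_nonneg _)
      _ ≤ _ := by
          rw [one_mul]
          exact h1
  have n2 : ‖g * PS N r M S ψ v β u‖ = ‖PS N r M S ψ v β u‖ := by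
    rw [norm_mul, hg1, one_mul]
  have n3 : ‖∑ μ ∈ S.filter (fun μ => ¬ μ ∣ r),
      ψ μ * (g * (GS r (μ : ℤ) 0 / GS r 1 0) * t μ)‖ ≤
      ∑ μ ∈ S.filter (fun μ => ¬ μ ∣ r), Real.sqrt ((N : ℝ) / (2 * RR N r ((μ : ℝ) * β))) *
        ((1 + RR N r ((μ : ℝ) * β) / (μ : ℝ)) +
          Real.exp (-(Real.pi * (M : ℝ) ^ 2 / (2 * (RR N r ((μ : ℝ) * β)) ^ 2))) *
            (1 + 2 * RR N r ((μ : ℝ) * β))) := by
    refine (norm_sum_le _ _).trans (Finset.sum_le_sum ?_)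
    intro μ hμ
    rw [Finset.mem_filter] at hμ
    rw [norm_mul, norm_mul, norm_mul, hg1, ht2 μ hμ.1 hμ.2, one_mul, one_mul]
    calc ‖ψ μ‖ * ‖t μ‖ ≤ 1 * ‖t μ‖ :=
          mul_le_mul_of_nonneg_right (hψ μ hμ.1) (norm_nonneg _)
      _ ≤ _ := by
          rw [one_mul]
          exact ht1 μ hμ.1 hμ.2
  calc ‖∑ μ ∈ S.filter (fun μ => μ ∣ r), ψ μ * th N ((μ : ℝ) * ((b : ℝ) / (r : ℝ) + β)) +
        (g * PS N r M S ψ v β u + ∑ μ ∈ S.filter (fun μ => ¬ μ ∣ r),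
          ψ μ * (g * (GS r (μ : ℤ) 0 / GS r 1 0) * t μ))‖ ≤
      ‖∑ μ ∈ S.filter (fun μ => μ ∣ r), ψ μ * th N ((μ : ℝ) * ((b : ℝ) / (r : ℝ) + β))‖ +
        (‖g * PS N r M S ψ v β u‖ + ‖∑ μ ∈ S.filter (fun μ => ¬ μ ∣ r),
          ψ μ * (g * (GS r (μ : ℤ) 0 / GS r 1 0) * t μ)‖) :=
        (norm_add_le _ _).trans (add_le_add le_rfl (norm_add_le _ _))
    _ ≤ _ := by
        rw [n2]
        linarith

end Pool.Agent.K4W.H44
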