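import Mathlib
import Pool.Agent.K4W.StmtsF
import Pool.Agent.Helper39_VM.Prm

set_option autoImplicit false

/-! Squad K4W (MP_3b0be2_nt), row PRZ: there are sets of primes. -/

namespace Pool.Agent.K4W.H44

open Pool.Agent.K4W

theorem prz : PrzStmt := by
  obtain ⟨D₀, hD₀⟩ := VM.H39.prm (1 / 1000) (by norm_num)
  refine ⟨max D₀ 1, ?_⟩
  intro Z hZ
  have hZ1 : 1 ≤ Z := (le_max_right _ _).trans hZ
  have hZD : D₀ ≤ Z := (le_max_left _ _).trans hZ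
  have hD : D₀ ≤ Z ^ 1000 := hZD.trans (Nat.le_self_pow (by norm_num) Z)
  have h1 := hD₀ (Z ^ 1000) hD
  refine ⟨(Finset.Ioc (Z ^ 1000) (2 * Z ^ 1000)).filter Nat.Prime, ?_, ?_⟩
  · have h2 : (((Z ^ 1000 : ℕ) : ℝ)) ^ ((1 : ℝ) - 1 / 1000) = ((Z ^ 999 : ℕ) : ℝ) := by
      rw [Nat.cast_pow, Nat.cast_pow, ← Real.rpow_natCast, ← Real.rpow_mul (Nat.cast_nonneg Z),
        ← Real.rpow_natCast]
      congr 1
      norm_num
    rw [h2] at h1
    exact_mod_cast h1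
  · intro μ hμ
    rw [Finset.mem_filter, Finset.mem_Ioc] at hμ
    exact ⟨hμ.2, hμ.1.1, hμ.1.2⟩

end Pool.Agent.K4W.H44
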