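import Mathlib
import Pool.Agent.K4W.StmtsU

set_option autoImplicit false

/-! Squad K4W (MP_3b0be2_nt), row UBA: squaring a series. -/

namespace Pool.Agent.K4W.H44

open Pool.Agent.K4W

/-- `(h, x) ↦ (x, x + h)` -/
def eShift : ℤ × ℤ ≃ ℤ × ℤ where
  toFun p := (p.2, p.2 + p.1)
  invFun q := (q.2 - q.1, q.1)
  left_inv p := by
    ext
    · show p.2 + p.1 - p.2 = p.1
      ring
    · rfl
  right_inv q := by
    ext
    · rfl
    · show q.1 + (q.2 - q.1) = q.2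
      ring

/-- the products -/
noncomputable def HH (f : ℤ → ℂ) (p : ℤ × ℤ) : ℂ := f p.1 * (starRingEnd ℂ) (f p.2)

theorem hh_shift (f : ℤ → ℂ) (h x : ℤ) :
    HH f (eShift (h, x)) = f x * (starRingEnd ℂ) (f (x + h)) := rfl

theorem aa_eq (f : ℤ → ℂ) (h : ℤ) : AA f h = ∑' x : ℤ, HH f (eShift (h, x)) := by
  unfold AA
  exact tsum_congr fun x => (hh_shift f h x).symm

theorem conj_summable {f : ℤ → ℂ} (hf : Summable fun x : ℤ => ‖f x‖) :
    Summable fun x : ℤ => ‖(starRingEnd ℂ) (f x)‖ := by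
  simpa only [RCLike.norm_conj] using hf

theorem hh_summable0 {f : ℤ → ℂ} (hf : Summable fun x : ℤ => ‖f x‖) :
    Summable fun p => ‖HH f p‖ := by
  have h := hf.mul_norm (conj_summable hf)
  unfold HH
  exact h

theorem comp_summable {f : ℤ → ℂ} (e : ℤ × ℤ ≃ ℤ × ℤ) (h : Summable fun p => ‖HH f p‖) :
    Summable fun p : ℤ × ℤ => ‖HH f (e p)‖ := by
  have h1 := (Equiv.summable_iff e (f := fun p => ‖HH f p‖)).2 h
  exact h1

theorem hh_summable {f : ℤ → ℂ} (hf : Summable fun x : ℤ => ‖f x‖) :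
    Summable fun p : ℤ × ℤ => ‖HH f (eShift p)‖ :=
  comp_summable eShift (hh_summable0 hf)

theorem hh_tsum {f : ℤ → ℂ} (hf : Summable fun x : ℤ => ‖f x‖) :
    (∑' x : ℤ, f x) * (starRingEnd ℂ) (∑' x : ℤ, f x) = ∑' h : ℤ, AA f h := by
  rw [Complex.conj_tsum, tsum_mul_tsum_of_summable_norm hf (conj_summable hf)]
  have h2 : ∑' z : ℤ × ℤ, f z.1 * (starRingEnd ℂ) (f z.2) =
      ∑' p : ℤ × ℤ, HH f (eShift p) := (Equiv.tsum_eq eShift (HH f)).symm
  rw [h2, Summable.tsum_prod (hh_summable hf).of_norm]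
  exact tsum_congr fun h => (aa_eq f h).symm

theorem uba : UbaStmt := by
  intro f hf
  have hS := hh_summable hf
  have hsum : Summable fun h : ℤ => ‖AA f h‖ := by
    refine Summable.of_nonneg_of_le (f := fun h : ℤ => ∑' x : ℤ, ‖HH f (eShift (h, x))‖)
      (fun _ => norm_nonneg _) (fun h => ?_) hS.prod
    rw [aa_eq f h]
    exact norm_tsum_le_tsum_norm (hS.prod_factor h)
  refine ⟨hsum, ?_⟩
  have h3 : ‖∑' x : ℤ, f x‖ ^ 2 = ‖∑' h : ℤ, AA f h‖ := by
    rw [← hh_tsum hf, norm_mul, RCLike.norm_conj, pow_two]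
  rw [h3]
  exact norm_tsum_le_tsum_norm hsum

end Pool.Agent.K4W.H44
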